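import Pool.Agent.R552.Circ.Red

/-!
# Deciding whether the circular chromatic number is less than three is NP-complete

A graph has `χ_c < 3` exactly when it has a proper 3-colouring (with colours modulo three) such that
the orientation of every edge from a colour to the next colour is acyclic. In such a colouring the
signed number of forward edges is `±3` on a 5-cycle, `0` on a 6-cycle and `±3` on a 9-cycle. So a
5-cycle carries a sign, two 5-cycles with a common path of length two carry the same sign, and a
9-cycle which is the sum of three 5-cycles is a not-all-equal clause for their signs. The reduction
is from monotone not-all-equal satisfiability; every variable is a path of length two.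
-/

namespace Pool.Agent.Results.MP_8cd8c6_lc.CircLtThreeNPComplete

open Pool.Agent.NPC Pool.Agent.R552.Circ

/-- **CIRC<3 is NP-complete**: the problem to decide, from the adjacency matrix of a graph, whether
its circular chromatic number is less than three is in `NP` and is `NP`-hard under polynomial-time
many-one reductions. -/
theorem result : InNPP CircLtThree ∧ NPHardP CircLtThree := ⟨circ_inNPP, circ_npHard⟩

end Pool.Agent.Results.MP_8cd8c6_lc.CircLtThreeNPComplete
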